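import Mathlib
import Pool.Agent.H408R3.Transfer

/-!
The smallest number of variables of a polynomial ring that contains a homogeneous ideal with a given
depth function: it is `max f + 1` if `f` is constant and `max f + 2` otherwise.
-/

set_option autoImplicit false

namespace Pool.Agent.Results.MP_07d438_ag.MinVariables

open MvPolynomial RingTheory.Sequence

universe u

/-- The depth of `K[x_1, …, x_n] ⧸ J`: the supremum of the lengths of the regular sequences on
`K[x_1, …, x_n] ⧸ J` all of whose terms lie in `𝔪 = (x_1, …, x_n)`. -/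
noncomputable def depthQuot {K : Type u} [Field K] {n : ℕ}
    (J : Ideal (MvPolynomial (Fin n) K)) : ℕ∞ :=
  ⨆ (rs : List (MvPolynomial (Fin n) K))
    (_ : (∀ x ∈ rs, x ∈ Ideal.span (Set.range (X : Fin n → MvPolynomial (Fin n) K))) ∧
      IsRegular (MvPolynomial (Fin n) K ⧸ J) rs), (rs.length : ℕ∞)

/-- `Q` is a homogeneous ideal: it is generated by homogeneous polynomials. -/
def IsHomogeneousIdeal {K : Type u} [Field K] {n : ℕ} (Q : Ideal (MvPolynomial (Fin n) K)) : Prop :=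
  ∃ G : Set (MvPolynomial (Fin n) K), (∀ p ∈ G, ∃ d : ℕ, p.IsHomogeneous d) ∧ Q = Ideal.span G

/-- `f` is the depth function of a proper nonzero homogeneous ideal `Q` of `K[x_1, …, x_n]`. -/
def Realizes (K : Type u) [Field K] (n : ℕ) (f : ℕ → ℕ) : Prop :=
  ∃ Q : Ideal (MvPolynomial (Fin n) K), IsHomogeneousIdeal Q ∧ Q ≠ ⊥ ∧ Q ≠ ⊤ ∧
    ∀ t, 1 ≤ t → depthQuot (Q ^ t) = (f t : ℕ∞)

open Pool.Agent.H408R3 in
theorem le_mm {K : Type u} [Field K] {n : ℕ} (Q : Ideal (MvPolynomial (Fin n) K))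
    (h : IsHomogeneousIdeal Q) (h1 : Q ≠ ⊤) : Q ≤ Pool.Agent.Helper698.Dstab.mm K n := by
  obtain ⟨G, hG, rfl⟩ := h
  rw [Ideal.span_le]
  intro p hp
  obtain ⟨d, hd⟩ := hG p hp
  show p ∈ Pool.Agent.Helper698.Dstab.mm K n
  rw [mem_mm_iff]
  by_contra hne
  have hd0 : d = 0 := by
    by_contra hd0
    apply hne
    have := hd.coeff_eq_zero (d := 0) (by simpa using (Ne.symm hd0))
    exact this
  subst hd0
  rw [← totalDegree_zero_iff_isHomogeneous] at hd
  have h2 := totalDegree_eq_zero_iff_eq_C.1 hd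
  apply h1
  rw [Ideal.eq_top_iff_one]
  have h3 : C ((constantCoeff p)⁻¹) * p ∈ Ideal.span G :=
    Ideal.mul_mem_left _ _ (Ideal.subset_span hp)
  have h4 : C ((constantCoeff p)⁻¹) * p = 1 := by
    have h5 : p = C (constantCoeff p) := h2
    rw [h5, constantCoeff_C, ← C_mul, inv_mul_cancel₀, C_1]
    exact hne
  rwa [h4] at h3

theorem lower {K : Type u} [Field K] {n : ℕ} (f : ℕ → ℕ) (m : ℕ)
    (hm : IsGreatest (f '' {t | 1 ≤ t}) m) (h : Realizes K n f) :
    m + 1 ≤ n ∧ ((∃ t, 1 ≤ t ∧ f t ≠ m) → m + 2 ≤ n) := by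
  obtain ⟨Q, hh, hQ0, hQ1, hf⟩ := h
  have hQ := le_mm Q hh hQ1
  obtain ⟨t0, ht0, hft0⟩ := hm.1
  have h1 : (m : ℕ∞) + 1 ≤ n := by
    rw [← hft0, ← hf t0 ht0]
    exact Pool.Agent.H408R3.depthQuot_add_one_le _ (pow_ne_zero _ hQ0)
      ((Ideal.pow_le_self (by have : 1 ≤ t0 := ht0; omega)).trans hQ)
  have h1' : m + 1 ≤ n := by exact_mod_cast h1
  refine ⟨h1', ?_⟩
  · rintro ⟨t, ht, hne⟩
    by_contra hcon
    apply hne
    have hn : n = m + 1 := by omega
    have h2 := Pool.Agent.H408R3.const_of_depth Q hQ0 hQ ht0 (by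
      have := hf t0 ht0
      show depthQuot (Q ^ t0) + 1 = n
      rw [this, hft0, hn]; push_cast; rfl) ht
    have h3 : depthQuot (Q ^ t) + 1 = n := h2
    rw [hf t ht, hn] at h3
    have h4 : f t + 1 = m + 1 := by exact_mod_cast h3
    omega

theorem upper_const (K : Type u) [Field K] (f : ℕ → ℕ) (m : ℕ)
    (hc : ∀ t, 1 ≤ t → f t = m) : Realizes K (m + 1) f := by
  have hX : (X 0 : MvPolynomial (Fin (m + 1)) K) ≠ 0 := X_ne_zero 0
  have hle : Ideal.span {(X 0 : MvPolynomial (Fin (m + 1)) K)} ≤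
      Pool.Agent.Helper698.Dstab.mm K (m + 1) := by
    rw [Ideal.span_singleton_le_iff_mem]
    exact Ideal.subset_span ⟨0, rfl⟩
  have h0 : Ideal.span {(X 0 : MvPolynomial (Fin (m + 1)) K)} ≠ ⊥ := by
    rw [Ne, Ideal.span_singleton_eq_bot]; exact hX
  refine ⟨Ideal.span {X 0}, ⟨{X 0}, ?_, rfl⟩, h0, ?_, ?_⟩
  · rintro p rfl
    exact ⟨1, isHomogeneous_X K 0⟩
  · intro h
    rw [h] at hle
    exact Pool.Agent.Helper698.Dstab.mm_ne_top (top_le_iff.1 hle)
  · intro t ht
    have hle' : Ideal.span {(X 0 : MvPolynomial (Fin (m + 1)) K)} ^ t ≤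
        Pool.Agent.Helper698.Dstab.mm K (m + 1) := (Ideal.pow_le_self (by omega)).trans hle
    have h1 := Pool.Agent.H408R3.depthQuot_add_one_le _ (pow_ne_zero t h0) hle'
    rw [hc t ht]
    apply le_antisymm
    · have h2 : depthQuot (Ideal.span {(X 0 : MvPolynomial (Fin (m + 1)) K)} ^ t) + 1 ≤
          (m : ℕ∞) + 1 := by
        refine le_trans h1 ?_
        push_cast; exact le_rfl
      exact (ENat.add_le_add_iff_right ENat.one_ne_top).1 h2
    · have h2 := Pool.Agent.H408R3.EV_principal ((X 0 : MvPolynomial (Fin (m + 1)) K) ^ t)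
        (pow_ne_zero t hX)
      rw [← Ideal.span_singleton_pow] at h2
      obtain ⟨rs, hlen, hmem, hreg⟩ :=
        Pool.Agent.Helper698.Dstab.exists_regular_of_EV _ hle' _ h2
      unfold depthQuot
      refine le_iSup_of_le rs (le_iSup_of_le ⟨hmem, hreg⟩ ?_)
      rw [hlen, Nat.add_sub_cancel]

theorem upper_all (K : Type u) [Field K] (f : ℕ → ℕ) (hf : ∃ N, ∀ t, N ≤ t → f t = f N) (m : ℕ)
    (hm : IsGreatest (f '' {t | 1 ≤ t}) m) : Realizes K (m + 2) f := by
  obtain ⟨N, hN⟩ := hf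
  have hfm : ∀ t, 1 ≤ t → f t ≤ m := fun t ht => hm.2 ⟨t, ht, rfl⟩
  have hT : 1 ≤ N + 1 := by omega
  let g : ℕ → ℕ := fun s => m - f (s + 1)
  have hgm : ∀ s, g s ≤ m := fun s => Nat.sub_le _ _
  refine ⟨Pool.Agent.H408R3.QQ K (N + 1) m g, Pool.Agent.H408R3.QQ_homogeneous hgm,
    Pool.Agent.H408R3.QQ_ne_bot, ?_, ?_⟩
  · intro h
    have h1 := Pool.Agent.H408R3.QQ_le (K := K) (T := N + 1) (m := m) (g := g)
    rw [h] at h1
    exact Pool.Agent.Helper698.Dstab.mm_ne_top (top_le_iff.1 h1)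
  · intro t ht
    obtain ⟨n, rfl⟩ : ∃ n, t = n + 1 := ⟨t - 1, by omega⟩
    have h1 := Pool.Agent.H408R3.depth_QQ (K := K) hT hgm n
    have h2 : m - g (Pool.Agent.H408R3.act (N + 1) n) = f (n + 1) := by
      show m - (m - f (Pool.Agent.H408R3.act (N + 1) n + 1)) = f (n + 1)
      have h3 : f (Pool.Agent.H408R3.act (N + 1) n + 1) = f (n + 1) := by
        unfold Pool.Agent.H408R3.act
        rcases Nat.lt_or_ge n N with h | h
        · congr 1; omega
        · rw [hN (n + 1) (by omega), hN _ (by omega)]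
      rw [h3]
      have := hfm (n + 1) (by omega)
      omega
    rw [h2] at h1
    exact h1

/-- **The minimal number of variables realizing a depth function.** Let `f` be an eventually
constant function with maximum `m` on `t ≥ 1`. Over every field, and also over all fields together,
the least number of variables in which some proper nonzero homogeneous ideal `Q` satisfies
`depth S ⧸ Q ^ t = f t` for all `t ≥ 1` is `m + 1` if `f` is constant on `t ≥ 1` and `m + 2`
otherwise. -/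
theorem result (f : ℕ → ℕ) (hf : ∃ N, ∀ t, N ≤ t → f t = f N) (m : ℕ)
    (hm : IsGreatest (f '' {t | 1 ≤ t}) m) :
    ((∀ t, 1 ≤ t → f t = m) →
      (∀ (K : Type u) [Field K], IsLeast {n : ℕ | Realizes K n f} (m + 1)) ∧
      IsLeast {n : ℕ | ∃ (K : Type u) (_ : Field K), Realizes K n f} (m + 1)) ∧
    ((∃ t, 1 ≤ t ∧ f t ≠ m) →
      (∀ (K : Type u) [Field K], IsLeast {n : ℕ | Realizes K n f} (m + 2)) ∧
      IsLeast {n : ℕ | ∃ (K : Type u) (_ : Field K), Realizes K n f} (m + 2)) := by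
  refine ⟨fun hc => ⟨fun K _ => ⟨upper_const K f m hc, fun n hn => (lower f m hm hn).1⟩, ⟨?_, ?_⟩⟩,
    fun hc => ⟨fun K _ => ⟨upper_all K f hf m hm, fun n hn => (lower f m hm hn).2 hc⟩, ⟨?_, ?_⟩⟩⟩
  · exact ⟨ULift ℚ, inferInstance, upper_const _ f m hc⟩
  · rintro n ⟨K, _, hn⟩
    exact (lower f m hm hn).1
  · exact ⟨ULift ℚ, inferInstance, upper_all _ f hf m hm⟩
  · rintro n ⟨K, _, hn⟩
    exact (lower f m hm hn).2 hc

end Pool.Agent.Results.MP_07d438_ag.MinVariables
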